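import Pool.Agent.Q120.SM.Stm

/-!
# Sums of the probabilities over windows (job SUM of project SM)
-/

set_option autoImplicit false

namespace Pool.Agent.Q223.SM

open Finset Filter Topology Polynomial Pool.Agent.Q120.GM Pool.Agent.Q120.SM

/-! ## one polynomial -/

theorem eval_real (P : ℤ[X]) (n : ℕ) :
    (P.map (Int.castRingHom ℝ)).eval (n : ℝ) = ((P.eval (n : ℤ) : ℤ) : ℝ) := by
  have h := Polynomial.eval_intCast_map (Int.castRingHom ℝ) P (n : ℤ)
  rw [Int.cast_natCast] at h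
  exact h

theorem toNat_real {z : ℤ} (h : ((z.toNat : ℕ) : ℤ) = z) : ((z.toNat : ℕ) : ℝ) = (z : ℝ) := by
  have h1 : (((z.toNat : ℕ) : ℤ) : ℝ) = (z : ℝ) := congrArg (Int.cast : ℤ → ℝ) h
  rw [← h1, Int.cast_natCast]

theorem ratio_tendsto (P : ℤ[X]) :
    Tendsto (fun n : ℕ => ((P.eval (n : ℤ) : ℤ) : ℝ) / (n : ℝ) ^ P.natDegree) atTop (𝓝 (P.leadingCoeff : ℝ)) := by
  by_cases hP : P = 0
  · subst hP
    simp
  have h2 : (P.map (Int.castRingHom ℝ)).degree = ((X : ℝ[X]) ^ P.natDegree).degree := by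
    rw [Polynomial.degree_map_eq_of_injective (RingHom.injective_int _), Polynomial.degree_X_pow,
      Polynomial.degree_eq_natDegree hP]
  have h3 := Polynomial.div_tendsto_atTop_leadingCoeff_div_of_degree_eq (P.map (Int.castRingHom ℝ))
    ((X : ℝ[X]) ^ P.natDegree) h2
  rw [Polynomial.leadingCoeff_map_of_injective (RingHom.injective_int _)] at h3
  simp only [eval_pow, eval_X, Polynomial.leadingCoeff_X_pow, div_one, eq_intCast] at h3
  have h4 := h3.comp (tendsto_natCast_atTop_atTop (R := ℝ))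
  refine h4.congr (fun n => ?_)
  simp only [Function.comp]
  rw [eval_real]

theorem val_tendsto (P : ℤ[X]) (hl : 0 < P.leadingCoeff) (hd : 0 < P.natDegree) :
    Tendsto (fun n : ℕ => ((P.eval (n : ℤ) : ℤ) : ℝ)) atTop atTop := by
  have h1 := ratio_tendsto P
  have h2 : Tendsto (fun n : ℕ => (n : ℝ) ^ P.natDegree) atTop atTop :=
    (tendsto_pow_atTop hd.ne').comp (tendsto_natCast_atTop_atTop (R := ℝ))
  have h3 : (0 : ℝ) < (P.leadingCoeff : ℝ) := by exact_mod_cast hl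
  have h4 := h1.pos_mul_atTop h3 h2
  refine h4.congr' ?_
  filter_upwards [eventually_gt_atTop 0] with n hn
  have : (n : ℝ) ≠ 0 := by exact_mod_cast hn.ne'
  field_simp

theorem val_nat (P : ℤ[X]) (hl : 0 < P.leadingCoeff) (hd : 0 < P.natDegree) :
    ∀ᶠ n : ℕ in atTop, (((P.eval (n : ℤ)).toNat : ℕ) : ℤ) = P.eval (n : ℤ) ∧
      1 < (P.eval (n : ℤ)).toNat := by
  filter_upwards [(val_tendsto P hl hd).eventually_gt_atTop 1] with n hn
  have h1 : 1 < P.eval (n : ℤ) := by exact_mod_cast hn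
  constructor
  · exact Int.toNat_of_nonneg (by omega)
  · omega

theorem log_ratio (P : ℤ[X]) (hl : 0 < P.leadingCoeff) (hd : 0 < P.natDegree) :
    Tendsto (fun n : ℕ => Real.log ((P.eval (n : ℤ)).toNat : ℝ) / Real.log n) atTop (𝓝 (P.natDegree : ℝ)) := by
  have h1 := ratio_tendsto P
  have h3 : (0 : ℝ) < (P.leadingCoeff : ℝ) := by exact_mod_cast hl
  have h4 : Tendsto (fun n : ℕ => Real.log (((P.eval (n : ℤ) : ℤ) : ℝ) / (n : ℝ) ^ P.natDegree)) atTop
      (𝓝 (Real.log (P.leadingCoeff : ℝ))) := h1.log h3.ne'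
  have h5 : Tendsto (fun n : ℕ => Real.log (n : ℝ)) atTop atTop :=
    Real.tendsto_log_atTop.comp (tendsto_natCast_atTop_atTop (R := ℝ))
  have h6 := (h4.div_atTop h5).add_const (P.natDegree : ℝ)
  rw [zero_add] at h6
  refine h6.congr' ?_
  filter_upwards [val_nat P hl hd, eventually_gt_atTop 1] with n hn hn1
  obtain ⟨h7, h8⟩ := hn
  have h9 : (((P.eval (n : ℤ)).toNat : ℕ) : ℝ) = ((P.eval (n : ℤ) : ℤ) : ℝ) := toNat_real h7
  rw [← h9]
  have h10 : (0 : ℝ) < (n : ℝ) := by positivity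
  have h11 : 0 < Real.log (n : ℝ) := Real.log_pos (by exact_mod_cast hn1)
  have h12 : (0 : ℝ) < (((P.eval (n : ℤ)).toNat : ℕ) : ℝ) := by
    have : 0 < (P.eval (n : ℤ)).toNat := by omega
    exact_mod_cast this
  rw [Real.log_div h12.ne' (by positivity), Real.log_pow]
  field_simp
  ring

/-! ## the weight of a position -/

open Classical in
/-- the indicator of the admissible positions -/
noncomputable def g (Q k : ℕ) (P : Fin k → ℤ[X]) (n : ℕ) : ℝ :=
  if ∀ i, IsCoprime ((P i).eval (n : ℤ)) (Q : ℤ) then 1 else 0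

/-- the smooth factor -/
noncomputable def K (Q k : ℕ) (P : Fin k → ℤ[X]) (n : ℕ) : ℝ :=
  ((Q : ℝ) / Nat.totient Q) ^ k / ∏ i, Real.log (((P i).eval (n : ℤ)).toNat : ℝ)

theorem g_nonneg (Q k : ℕ) (P : Fin k → ℤ[X]) (n : ℕ) : 0 ≤ g Q k P n := by
  unfold g; split_ifs <;> norm_num

theorem g_le_one (Q k : ℕ) (P : Fin k → ℤ[X]) (n : ℕ) : g Q k P n ≤ 1 := by
  unfold g; split_ifs <;> norm_num

theorem g_periodic (Q k : ℕ) (P : Fin k → ℤ[X]) (n : ℕ) : g Q k P (n + Q) = g Q k P n := by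
  unfold g
  congr 1
  rw [eq_iff_iff]
  refine forall_congr' (fun i => ?_)
  obtain ⟨t, ht⟩ := Polynomial.sub_dvd_eval_sub (((n + Q : ℕ) : ℤ)) (n : ℤ) (P i)
  have h1 : (P i).eval ((n + Q : ℕ) : ℤ) = (P i).eval (n : ℤ) + (Q : ℤ) * t := by
    push_cast at ht ⊢
    linarith
  rw [h1]
  exact IsCoprime.add_mul_left_left_iff

theorem weight_eq (Q k : ℕ) (P : Fin k → ℤ[X]) (hS : Sys k P) :
    ∀ᶠ n : ℕ in atTop, ∏ v ∈ univ.image (fun i => ((P i).eval (n : ℤ)).toNat), level Q v =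
      g Q k P n * K Q k P n := by
  classical
  have h1 : ∀ᶠ n : ℕ in atTop, ∀ i, (((((P i).eval (n : ℤ)).toNat : ℕ) : ℤ) = (P i).eval (n : ℤ) ∧
      1 < ((P i).eval (n : ℤ)).toNat) :=
    eventually_all.2 (fun i => val_nat (P i) (hS.lead i) (hS.deg i))
  have h2 : ∀ᶠ n : ℕ in atTop, ∀ i j, i ≠ j → (P i).eval (n : ℤ) ≠ (P j).eval (n : ℤ) := by
    refine eventually_all.2 (fun i => eventually_all.2 (fun j => ?_))
    by_cases hij : i = j
    · exact Eventually.of_forall (fun n h => absurd hij h)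
    have h3 : P i - P j ≠ 0 := sub_ne_zero.2 (fun h => hij (hS.inj h))
    have h4 := Polynomial.eventually_atTop_not_isRoot ((P i - P j).map (Int.castRingHom ℝ))
      ((Polynomial.map_ne_zero_iff (RingHom.injective_int _)).2 h3)
    have h5 := (tendsto_natCast_atTop_atTop (R := ℝ)).eventually h4
    filter_upwards [h5] with n hn _ h6
    apply hn
    rw [Polynomial.IsRoot.def, eval_real, eval_sub, h6, sub_self, Int.cast_zero]
  have h3 : ∀ᶠ n : ℕ in atTop, ∀ i, (Q : ℝ) / Nat.totient Q ≤ Real.log (((P i).eval (n : ℤ)).toNat : ℝ) := by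
    refine eventually_all.2 (fun i => ?_)
    have h4 := (Real.tendsto_log_atTop.comp (val_tendsto (P i) (hS.lead i) (hS.deg i))).eventually_ge_atTop
      ((Q : ℝ) / Nat.totient Q)
    filter_upwards [h4, h1] with n hn hn1
    have h9 : ((((P i).eval (n : ℤ)).toNat : ℕ) : ℝ) = (((P i).eval (n : ℤ) : ℤ) : ℝ) := toNat_real (hn1 i).1
    rw [h9]
    exact hn
  filter_upwards [h1, h2, h3] with n hn1 hn2 hn3
  rw [Finset.prod_image]
  · have h4 : ∀ i, level Q ((P i).eval (n : ℤ)).toNat =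
        if IsCoprime ((P i).eval (n : ℤ)) (Q : ℤ) then
          ((Q : ℝ) / Nat.totient Q) / Real.log (((P i).eval (n : ℤ)).toNat : ℝ) else 0 := by
      intro i
      unfold level
      have h5 : (((P i).eval (n : ℤ)).toNat).Coprime Q ↔ IsCoprime ((P i).eval (n : ℤ)) (Q : ℤ) := by
        rw [← Nat.isCoprime_iff_coprime, (hn1 i).1]
      have h6 : 0 < Real.log (((P i).eval (n : ℤ)).toNat : ℝ) := Real.log_pos (by exact_mod_cast (hn1 i).2)
      rw [min_eq_right ((div_le_one h6).2 (hn3 i))]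
      simp only [h5]
    simp only [h4]
    rw [Finset.prod_ite_zero]
    unfold g K
    simp only [Finset.mem_univ, true_imp_iff]
    split_ifs with h
    · rw [one_mul, Finset.prod_div_distrib, Finset.prod_const, Finset.card_univ, Fintype.card_fin]
    · rw [zero_mul]
  · intro i _ j _ hij
    by_contra hne
    apply hn2 i j hne
    rw [← (hn1 i).1, ← (hn1 j).1]
    exact_mod_cast hij

theorem K_tendsto (Q k : ℕ) (P : Fin k → ℤ[X]) (hS : Sys k P) :
    Tendsto (fun n : ℕ => K Q k P n * Real.log n ^ k) atTop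
      (𝓝 (((Q : ℝ) / Nat.totient Q) ^ k / ∏ i, ((P i).natDegree : ℝ))) := by
  have h1 : Tendsto (fun n : ℕ => ∏ i, (Real.log (((P i).eval (n : ℤ)).toNat : ℝ) / Real.log n)) atTop
      (𝓝 (∏ i, ((P i).natDegree : ℝ))) :=
    tendsto_finsetProd _ (fun i _ => log_ratio (P i) (hS.lead i) (hS.deg i))
  have h2 : (∏ i, ((P i).natDegree : ℝ)) ≠ 0 := by
    refine Finset.prod_ne_zero_iff.2 (fun i _ => ?_)
    have := hS.deg i
    positivity
  have h3 := (tendsto_const_nhds (x := ((Q : ℝ) / Nat.totient Q) ^ k)).div h1 h2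
  refine h3.congr' ?_
  filter_upwards [eventually_gt_atTop 1] with n hn
  have h11 : 0 < Real.log (n : ℝ) := Real.log_pos (by exact_mod_cast hn)
  simp only [Pi.div_apply]
  rw [Finset.prod_div_distrib, Finset.prod_const, Finset.card_univ, Fintype.card_fin]
  unfold K
  rw [div_div_eq_mul_div]
  ring

/-! ## periodic sums -/

theorem sum_period (Q : ℕ) (f : ℕ → ℝ) (hf : ∀ n, f (n + Q) = f n) (m : ℕ) :
    ∑ n ∈ Ioc m (m + Q), f n = ∑ n ∈ range Q, f n := by
  induction m with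
  | zero =>
    rw [zero_add]
    have h1 : ∑ n ∈ Ioc 0 Q, f n + f 0 = ∑ n ∈ range (Q + 1), f n := by
      rw [Finset.sum_range_succ', Finset.range_eq_Ico, Finset.sum_Ico_add' f 0 Q 1]
      congr 1
    rw [Finset.sum_range_succ] at h1
    have h2 := hf 0
    rw [zero_add] at h2
    linarith
  | succ m ih =>
    have h1 : ∑ n ∈ Ioc m (m + 1 + Q), f n = ∑ n ∈ Ioc m (m + Q), f n + f (m + 1 + Q) := by
      have : m + 1 + Q = (m + Q) + 1 := by ring
      rw [this, Finset.sum_Ioc_succ_top (by omega)]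
    have h2 : ∑ n ∈ Ioc m (m + 1 + Q), f n = f (m + 1) + ∑ n ∈ Ioc (m + 1) (m + 1 + Q), f n := by
      rw [← Finset.sum_Ioc_consecutive f (Nat.le_succ m) (by omega : m + 1 ≤ m + 1 + Q)]
      congr 1
      simp
    have h3 := hf (m + 1)
    linarith

theorem sum_window (Q : ℕ) (hQ : 1 ≤ Q) (f : ℕ → ℝ) (hf : ∀ n, f (n + Q) = f n) (h0 : ∀ n, 0 ≤ f n)
    (h1 : ∀ n, f n ≤ 1) (m h : ℕ) :
    |∑ n ∈ Ioc m (m + h), f n - h * ((∑ n ∈ range Q, f n) / Q)| ≤ Q := by
  have hQ' : (0 : ℝ) < Q := by exact_mod_cast hQ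
  induction h using Nat.strong_induction_on generalizing m with
  | _ h ih =>
    by_cases hh : h < Q
    · have h2 : 0 ≤ ∑ n ∈ Ioc m (m + h), f n := Finset.sum_nonneg (fun n _ => h0 n)
      have h3 : ∑ n ∈ Ioc m (m + h), f n ≤ h := by
        have := Finset.sum_le_card_nsmul (Ioc m (m + h)) f 1 (fun n _ => h1 n)
        simpa using this
      have h4 : 0 ≤ (∑ n ∈ range Q, f n) / Q := div_nonneg (Finset.sum_nonneg (fun n _ => h0 n)) hQ'.le
      have h5 : (∑ n ∈ range Q, f n) / Q ≤ 1 := by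
        rw [div_le_one hQ']
        have := Finset.sum_le_card_nsmul (range Q) f 1 (fun n _ => h1 n)
        simpa using this
      have h6 : (h : ℝ) ≤ Q := by exact_mod_cast hh.le
      have h7 : (0 : ℝ) ≤ h := Nat.cast_nonneg h
      rw [abs_le]
      constructor
      · nlinarith
      · nlinarith
    · push Not at hh
      obtain ⟨h', rfl⟩ := Nat.exists_eq_add_of_le hh
      have h2 := ih h' (by omega) (m + Q)
      have h3 : ∑ n ∈ Ioc m (m + (Q + h')), f n = ∑ n ∈ Ioc m (m + Q), f n +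
          ∑ n ∈ Ioc (m + Q) (m + Q + h'), f n := by
        rw [Finset.sum_Ioc_consecutive f (by omega) (by omega), add_assoc]
      rw [h3, sum_period Q f hf]
      have h4 : ∑ n ∈ range Q, f n + ∑ n ∈ Ioc (m + Q) (m + Q + h'), f n -
          ((Q + h' : ℕ) : ℝ) * ((∑ n ∈ range Q, f n) / Q) =
          ∑ n ∈ Ioc (m + Q) (m + Q + h'), f n - (h' : ℝ) * ((∑ n ∈ range Q, f n) / Q) := by
        push_cast
        field_simp
        ring
      rw [h4]
      exact h2

theorem SQ_eq (Q k : ℕ) (P : Fin k → ℤ[X]) :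
    SQ Q k P = ((Q : ℝ) / Nat.totient Q) ^ k * ((∑ n ∈ range Q, g Q k P n) / Q) := by
  classical
  unfold SQ g
  rw [Finset.sum_boole, mul_div_assoc]

/-! ## the logarithms in the window -/

theorem log_window (ε : ℝ) (hε : 0 < ε) : ∀ᶠ x : ℝ in atTop, ∀ n : ℕ, x / 2 ≤ n → (n : ℝ) ≤ 3 * x →
    |Real.log x / Real.log n - 1| < ε := by
  have h1 : Tendsto (fun x : ℝ => Real.log x) atTop atTop := Real.tendsto_log_atTop
  filter_upwards [h1.eventually_gt_atTop (2 * (Real.log 3) / ε + 2 * Real.log 3), eventually_gt_atTop 4]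
    with x hx hx4 n hn1 hn2
  have hx0 : 0 < x := by linarith
  have h3 : 0 < Real.log 3 := Real.log_pos (by norm_num)
  have h23 : Real.log 2 ≤ Real.log 3 := Real.log_le_log (by norm_num) (by norm_num)
  have hn0 : (0 : ℝ) < n := by linarith
  have h4 : Real.log x - Real.log 3 ≤ Real.log n := by
    have := Real.log_le_log (by linarith) hn1
    rw [Real.log_div hx0.ne' (by norm_num)] at this
    linarith
  have h5 : Real.log n ≤ Real.log x + Real.log 3 := by
    have := Real.log_le_log hn0 hn2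
    rw [Real.log_mul (by norm_num) hx0.ne'] at this
    linarith
  have h6 : 0 < 2 * (Real.log 3) / ε := by positivity
  have h7 : 0 < Real.log n := by linarith
  have h8 : Real.log x / 2 ≤ Real.log n := by linarith
  rw [div_sub_one h7.ne', abs_div, abs_of_pos h7, div_lt_iff₀ h7]
  have h9 : |Real.log x - Real.log n| ≤ Real.log 3 := by
    rw [abs_le]; constructor <;> linarith
  have h10 : 2 * Real.log 3 < ε * Real.log x := by
    have : 2 * (Real.log 3) / ε < Real.log x := by linarith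
    rw [div_lt_iff₀ hε] at this
    linarith
  nlinarith

theorem K_window (Q k : ℕ) (P : Fin k → ℤ[X]) (hS : Sys k P) (ε : ℝ) (hε : 0 < ε) :
    ∀ᶠ x : ℝ in atTop, ∀ n : ℕ, x / 2 ≤ n → (n : ℝ) ≤ 3 * x →
    |K Q k P n * Real.log x ^ k - ((Q : ℝ) / Nat.totient Q) ^ k / ∏ i, ((P i).natDegree : ℝ)| < ε := by
  obtain ⟨C, hC⟩ : ∃ C, C = ((Q : ℝ) / Nat.totient Q) ^ k / ∏ i, ((P i).natDegree : ℝ) := ⟨_, rfl⟩
  rw [← hC]
  have h1 : ContinuousAt (fun q : ℝ × ℝ => q.1 * q.2 ^ k) (C, 1) := by fun_prop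
  have h2 := Metric.continuousAt_iff.1 h1 ε hε
  obtain ⟨η, hη, h2⟩ := h2
  have h3 := (Metric.tendsto_atTop.1 (K_tendsto Q k P hS)) η hη
  obtain ⟨N, hN⟩ := h3
  filter_upwards [log_window η hη, eventually_ge_atTop (2 * (N : ℝ)), eventually_gt_atTop 4]
    with x hx hxN hx4 n hn1 hn2
  have h4 : N ≤ n := by
    have : (N : ℝ) ≤ n := by linarith
    exact_mod_cast this
  have h5 := hN n h4
  rw [← hC] at h5
  have h6 := hx n hn1 hn2
  have h7 : dist (K Q k P n * Real.log n ^ k, Real.log x / Real.log n) (C, (1 : ℝ)) < η := by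
    rw [Prod.dist_eq, max_lt_iff]
    exact ⟨h5, by rw [Real.dist_eq]; exact h6⟩
  have h8 := h2 h7
  rw [Real.dist_eq] at h8
  simp only [one_pow, mul_one] at h8
  have hn0 : (1 : ℝ) < n := by linarith
  have h9 : 0 < Real.log (n : ℝ) := Real.log_pos hn0
  have h10 : K Q k P n * Real.log n ^ k * (Real.log x / Real.log n) ^ k = K Q k P n * Real.log x ^ k := by
    rw [div_pow]
    field_simp
  rw [h10] at h8
  exact h8

theorem LF_small (Q k : ℕ) (P : Fin k → ℤ[X]) (c : ℝ) : ∀ᶠ x : ℝ in atTop, c * LF Q k P x ≤ x := by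
  have h1 : (fun x : ℝ => Real.log x ^ (k + 1)) =o[atTop] (fun x : ℝ => x) := Real.isLittleO_pow_log_id_atTop
  have h2 : (fun x : ℝ => c * LF Q k P x) =o[atTop] (fun x : ℝ => x) := by
    unfold LF
    have h3 := (h1.const_mul_left ((∏ i, ((P i).natDegree : ℝ)) / SQ Q k P)).const_mul_left c
    exact h3
  have h4 := h2.bound (c := 1) one_pos
  filter_upwards [h4, eventually_gt_atTop 0] with x hx hx0
  rw [one_mul, Real.norm_eq_abs, Real.norm_eq_abs, abs_of_pos hx0] at hx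
  exact (le_abs_self _).trans hx

theorem t_SUM : J_SUM := by
  intro Q k P hQ hS hSQ c δ hc hδ
  obtain ⟨D, hD⟩ : ∃ D, D = ∏ i, ((P i).natDegree : ℝ) := ⟨_, rfl⟩
  have hD0 : 0 < D := by
    rw [hD]
    refine Finset.prod_pos (fun i _ => ?_)
    have := hS.deg i
    positivity
  obtain ⟨C, hC⟩ : ∃ C, C = ((Q : ℝ) / Nat.totient Q) ^ k / ∏ i, ((P i).natDegree : ℝ) := ⟨_, rfl⟩
  have hC0 : 0 ≤ C := by rw [hC, ← hD]; positivity
  obtain ⟨G, hG⟩ : ∃ G, G = (∑ n ∈ range Q, g Q k P n) / Q := ⟨_, rfl⟩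
  have hQ' : (0 : ℝ) < Q := by exact_mod_cast hQ
  have hG0 : 0 ≤ G := by
    rw [hG]
    exact div_nonneg (Finset.sum_nonneg (fun n _ => g_nonneg Q k P n)) hQ'.le
  have hG1 : G ≤ 1 := by
    rw [hG, div_le_one hQ']
    have := Finset.sum_le_card_nsmul (range Q) (g Q k P) 1 (fun n _ => g_le_one Q k P n)
    simpa using this
  have hCG : C * G = SQ Q k P / D := by
    rw [SQ_eq, ← hG, hC, ← hD]
    ring
  obtain ⟨ε, hε⟩ : ∃ ε, ε = δ * SQ Q k P / (2 * c * D) := ⟨_, rfl⟩
  have hε0 : 0 < ε := by rw [hε]; positivity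
  have hlog : Tendsto (fun x : ℝ => Real.log x ^ (k + 1)) atTop atTop :=
    (tendsto_pow_atTop (Nat.succ_ne_zero k)).comp Real.tendsto_log_atTop
  obtain ⟨N, hN⟩ := eventually_atTop.1 (weight_eq Q k P hS)
  filter_upwards [K_window Q k P hS ε hε0, LF_small Q k P c,
    hlog.eventually_ge_atTop (2 * (C * (Q + 1)) / δ), eventually_ge_atTop (2 * (N : ℝ)),
    eventually_gt_atTop 4] with x hK hLF hl hxN hx4 m hm1 hm2
  have hlx : 0 < Real.log x := Real.log_pos (by linarith)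
  obtain ⟨h, hh⟩ : ∃ h, h = ⌊c * LF Q k P x⌋₊ := ⟨_, rfl⟩
  rw [← hh]
  have hL0 : 0 ≤ c * LF Q k P x := by
    unfold LF
    rw [← hD]
    positivity
  have hh1 : (h : ℝ) ≤ c * LF Q k P x := by rw [hh]; exact Nat.floor_le hL0
  have hh2 : c * LF Q k P x ≤ h + 1 := by rw [hh]; exact (Nat.lt_floor_add_one _).le
  have hLeq : c * LF Q k P x = c * (D / SQ Q k P) * Real.log x ^ (k + 1) := by
    unfold LF
    rw [← hD]
    ring
  -- the positions of the window
  have hwin : ∀ n ∈ Ioc m (m + h), x / 2 ≤ n ∧ (n : ℝ) ≤ 3 * x ∧ N ≤ n := by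
    intro n hn
    rw [Finset.mem_Ioc] at hn
    have h1 : (m : ℝ) + 1 ≤ n := by exact_mod_cast hn.1
    have h2 : (n : ℝ) ≤ m + h := by exact_mod_cast hn.2
    have h3 : x / 2 ≤ n := by linarith
    refine ⟨h3, by linarith, ?_⟩
    have : (N : ℝ) ≤ n := by linarith
    exact_mod_cast this
  have hs1 : ∑ n ∈ Ioc m (m + h), ∏ v ∈ univ.image (fun i => ((P i).eval (n : ℤ)).toNat), level Q v =
      ∑ n ∈ Ioc m (m + h), g Q k P n * K Q k P n :=
    Finset.sum_congr rfl (fun n hn => hN n (hwin n hn).2.2)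
  rw [hs1]
  obtain ⟨W, hW⟩ : ∃ W, W = ∑ n ∈ Ioc m (m + h), g Q k P n * K Q k P n := ⟨_, rfl⟩
  obtain ⟨A, hA⟩ : ∃ A, A = ∑ n ∈ Ioc m (m + h), g Q k P n := ⟨_, rfl⟩
  rw [← hW]
  have hA1 : |A - h * G| ≤ Q := by
    rw [hA, hG]
    exact sum_window Q hQ (g Q k P) (g_periodic Q k P) (g_nonneg Q k P) (g_le_one Q k P) m h
  have hW1 : |W * Real.log x ^ k - C * A| ≤ ε * h := by
    have h1 : W * Real.log x ^ k - C * A =
        ∑ n ∈ Ioc m (m + h), g Q k P n * (K Q k P n * Real.log x ^ k - C) := by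
      rw [hW, hA, Finset.sum_mul, Finset.mul_sum, ← Finset.sum_sub_distrib]
      refine Finset.sum_congr rfl (fun n _ => ?_)
      ring
    rw [h1]
    refine (Finset.abs_sum_le_sum_abs _ _).trans ?_
    have h2 : ∀ n ∈ Ioc m (m + h), |g Q k P n * (K Q k P n * Real.log x ^ k - C)| ≤ ε := by
      intro n hn
      obtain ⟨h3, h4, _⟩ := hwin n hn
      have h5 := hK n h3 h4
      rw [← hC] at h5
      rw [abs_mul, abs_of_nonneg (g_nonneg Q k P n)]
      calc g Q k P n * |K Q k P n * Real.log x ^ k - C| ≤ 1 * ε :=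
            mul_le_mul (g_le_one Q k P n) h5.le (abs_nonneg _) zero_le_one
        _ = ε := one_mul ε
    have h3 := Finset.sum_le_card_nsmul (Ioc m (m + h)) _ ε h2
    refine h3.trans (le_of_eq ?_)
    rw [Nat.card_Ioc, add_tsub_cancel_left, nsmul_eq_mul, mul_comm]
  -- the main term
  have hmain : C * (G * (c * LF Q k P x)) = c * Real.log x ^ (k + 1) := by
    rw [hLeq, ← mul_assoc, hCG]
    field_simp
  have hεL : ε * (c * LF Q k P x) = δ / 2 * Real.log x ^ (k + 1) := by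
    rw [hLeq, hε]
    field_simp
  have hsmall : C * (Q + 1) ≤ δ / 2 * Real.log x ^ (k + 1) := by
    rw [div_le_iff₀ hδ] at hl
    linarith
  have hA2 := abs_le.1 hA1
  have hW2 := abs_le.1 hW1
  have hfin : |W * Real.log x ^ k - c * Real.log x ^ (k + 1)| ≤ δ * Real.log x ^ (k + 1) := by
    have e1 : ε * h ≤ δ / 2 * Real.log x ^ (k + 1) := by
      rw [← hεL]
      exact mul_le_mul_of_nonneg_left hh1 hε0.le
    have e2 : C * A ≤ C * (h * G + Q) := mul_le_mul_of_nonneg_left (by linarith [hA2.2]) hC0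
    have e3 : C * (h * G - Q) ≤ C * A := mul_le_mul_of_nonneg_left (by linarith [hA2.1]) hC0
    have e4 : C * (G * h) ≤ c * Real.log x ^ (k + 1) := by
      rw [← hmain]
      exact mul_le_mul_of_nonneg_left (mul_le_mul_of_nonneg_left hh1 hG0) hC0
    have e5 : c * Real.log x ^ (k + 1) ≤ C * (G * h) + C := by
      rw [← hmain]
      have e6 : G * (c * LF Q k P x) ≤ G * h + 1 := by
        have := mul_le_mul_of_nonneg_left hh2 hG0
        nlinarith
      have := mul_le_mul_of_nonneg_left e6 hC0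
      linarith
    rw [abs_le]
    constructor
    · nlinarith [hW2.1]
    · nlinarith [hW2.2]
  have hlk : 0 < Real.log x ^ k := by positivity
  have hfin2 : |W - c * Real.log x| * Real.log x ^ k ≤ δ * Real.log x * Real.log x ^ k := by
    rw [← abs_of_pos hlk, ← abs_mul, abs_of_pos hlk]
    have e1 : (W - c * Real.log x) * Real.log x ^ k = W * Real.log x ^ k - c * Real.log x ^ (k + 1) := by ring
    rw [e1]
    refine hfin.trans (le_of_eq ?_)
    ring
  exact le_of_mul_le_mul_right hfin2 hlk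

end Pool.Agent.Q223.SM
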